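import Pool.Agent.Helper76.TC.Goals

/-! Project TC, packet CH: chains. -/

set_option autoImplicit false

open Set Topology

namespace Pool.Agent.Helper20.TC.CH

open Pool.Agent.Helper76.TC
open Pool.Agent.Helper50.CT (rv Cov Sh)

theorem lip {n : ℕ} {X T : Type} [MetricSpace X] [MetricSpace T] [AddAction (Fin n → ℤ) X]
    {π : X → T} (hc : Cov n X T π) (x y : X) : dist (π x) (π y) ≤ dist x y := by
  have := hc.le x y 0
  rwa [zero_vadd] at this

theorem t : S_CH := by
  intro n A e D X T _ _ _ π p q S w w'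
  have hc := S.cov
  have he := S.epos
  have hA := S.A1
  have hπ : Continuous π := (LipschitzWith.mk_one (lip hc)).continuous
  set h : X → ℝ := fun v => dist (π p) (π v) with hh
  have hcont : Continuous h := continuous_const.dist hπ
  have habs : ∀ x y : X, |h x - h y| ≤ dist x y := by
    intro x y
    have h1 : |h x - h y| ≤ dist (π x) (π y) := by
      have := abs_dist_sub_le (π x) (π y) (π p)
      simpa [hh, dist_comm] using this
    exact h1.trans (lip hc x y)
  set lo : ℝ := min (h w) (h w') with hlo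
  set hi : ℝ := max (h w) (h w') with hhi
  -- one step
  have step : ∀ x v : X, lo ≤ h x → h x ≤ hi → |h x - h v| ≤ e →
      JoinedIn (lv π p fun s => lo - 3 * A * e < s ∧ s < hi + 3 * A * e) w x →
      ∃ k : Fin n → ℤ, JoinedIn (lv π p fun s => lo - 3 * A * e < s ∧ s < hi + 3 * A * e) w
        (k +ᵥ v) := by
    intro x v h1 h2 h3 hj
    obtain ⟨k, hk⟩ := hc.lift x v
    refine ⟨k, hj.trans ?_⟩
    have hd : dist x (k +ᵥ v) ≤ 2 * e := by
      rw [hk]
      have := S.thin x v
      have h3' : |dist (π p) (π x) - dist (π p) (π v)| ≤ e := h3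
      linarith
    have hT := S.turn x (k +ᵥ v)
    refine hT.mono ?_
    intro z hz
    rw [Metric.mem_closedBall] at hz
    have hz2 : dist z x ≤ 2 * A * e := by
      refine hz.trans ?_
      nlinarith [dist_nonneg (x := x) (y := k +ᵥ v)]
    have hz3 := (habs z x).trans hz2
    rw [abs_le] at hz3
    have hAe : 0 < A * e := by positivity
    change lo - 3 * A * e < h z ∧ h z < hi + 3 * A * e
    constructor <;> nlinarith
  -- intermediate values
  obtain ⟨γ⟩ := (S.turn w w').joined
  have ivt : ∀ s : ℝ, lo ≤ s → s ≤ hi → ∃ v : X, h v = s := by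
    intro s h1 h2
    have hf : Continuous fun r => h (γ r) := hcont.comp γ.continuous
    have e0 : h (γ 0) = h w := by rw [γ.source]
    have e1 : h (γ 1) = h w' := by rw [γ.target]
    have ha : ∃ a, h (γ a) ≤ s := by
      rcases min_le_iff.1 h1 with h3 | h3
      · exact ⟨0, by rw [e0]; exact h3⟩
      · exact ⟨1, by rw [e1]; exact h3⟩
    have hb : ∃ b, s ≤ h (γ b) := by
      rcases le_max_iff.1 h2 with h3 | h3
      · exact ⟨0, by rw [e0]; exact h3⟩
      · exact ⟨1, by rw [e1]; exact h3⟩
    obtain ⟨r, hr⟩ := mem_range_of_exists_le_of_exists_ge hf ha hb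
    exact ⟨γ r, hr⟩
  obtain ⟨J, hJ⟩ := exists_nat_ge (|h w' - h w| / e + 1)
  have hJ1 : (1 : ℝ) ≤ J := by
    have : 0 ≤ |h w' - h w| / e := by positivity
    linarith
  have hJ0 : (0 : ℝ) < J := by linarith
  have hJe : |h w' - h w| ≤ J * e := by
    have h1 : |h w' - h w| / e ≤ J := by linarith
    rwa [div_le_iff₀ he] at h1
  have lev : ∀ j : ℕ, j ≤ J → lo ≤ h w + (j / J : ℝ) * (h w' - h w) ∧
      h w + (j / J : ℝ) * (h w' - h w) ≤ hi := by
    intro j hj
    have h0 : 0 ≤ (j / J : ℝ) := by positivity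
    have h1 : (j / J : ℝ) ≤ 1 := by
      rw [div_le_one hJ0]; exact_mod_cast hj
    have a1 : lo ≤ h w := min_le_left _ _
    have a2 : lo ≤ h w' := min_le_right _ _
    have a3 : h w ≤ hi := le_max_left _ _
    have a4 : h w' ≤ hi := le_max_right _ _
    constructor <;> nlinarith
  have key : ∀ j : ℕ, j ≤ J → ∃ x : X, h x = h w + (j / J : ℝ) * (h w' - h w) ∧
      JoinedIn (lv π p fun s => lo - 3 * A * e < s ∧ s < hi + 3 * A * e) w x := by
    intro j
    induction j with
    | zero =>
      intro _
      refine ⟨w, by simp, ?_⟩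
      apply JoinedIn.refl
      have a1 : lo ≤ h w := min_le_left _ _
      have a3 : h w ≤ hi := le_max_left _ _
      have hAe : 0 < A * e := by positivity
      change lo - 3 * A * e < h w ∧ h w < hi + 3 * A * e
      constructor <;> nlinarith
    | succ j ih =>
      intro hj
      obtain ⟨x, hx, hjx⟩ := ih (by omega)
      have l1 := lev j (by omega)
      have l2 := lev (j + 1) hj
      obtain ⟨v, hv⟩ := ivt _ l2.1 l2.2
      rw [← hx] at l1
      have hd : |h x - h v| ≤ e := by
        rw [hx, hv]
        have : (h w + (j / J : ℝ) * (h w' - h w)) - (h w + ((j + 1 : ℕ) / J : ℝ) * (h w' - h w)) =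
            -((h w' - h w) / J) := by
          push_cast
          field_simp
          ring
        rw [this, abs_neg, abs_div, abs_of_pos hJ0, div_le_iff₀ hJ0]
        linarith
      obtain ⟨k, hk⟩ := step x v l1.1 l1.2 hd hjx
      refine ⟨k +ᵥ v, ?_, hk⟩
      rw [← hv]
      change dist (π p) (π (k +ᵥ v)) = dist (π p) (π v)
      rw [hc.inv]
  obtain ⟨x, hx, hjx⟩ := key J le_rfl
  have hx' : h x = h w' := by
    rw [hx, div_self hJ0.ne']; ring
  have l1 : lo ≤ h x := by rw [hx']; exact min_le_right _ _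
  have l2 : h x ≤ hi := by rw [hx']; exact le_max_right _ _
  have hd : |h x - h w'| ≤ e := by rw [hx']; simp [he.le]
  exact step x w' l1 l2 hd hjx

end Pool.Agent.Helper20.TC.CH
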